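import Pool.Agent.H553.SB.Pair

set_option autoImplicit false

/-!
# Small ball inequality: abstract form
-/

namespace Pool.Agent.H553.SB

open Finset
open Pool.Agent.H397R2.SD (E E_congr E_mono E_smul E_nonneg)
open Pool.Agent.NH43.AD
open Pool.Agent.NH44.AD (rhQ etQ S_PFQ)
open Pool.Agent.NH99.AL (all_PFQ)

theorem cz_le_one (d : ℕ) : cz d ≤ 1 := by
  unfold cz
  rw [div_le_one (by positivity)]
  have h1 : (1 : ℝ) ≤ (2 * ((d : ℝ) + 1)) ^ (d + 1) := by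
    apply one_le_pow₀
    have : (0 : ℝ) ≤ d := Nat.cast_nonneg d
    linarith
  linarith

/-- the abstract small ball inequality -/
theorem abs_sb (d : ℕ) (hd : 3 ≤ d) : ∃ c : ℝ, 0 < c ∧ ∃ A : ℕ, ∀ (n : ℕ) (Ω : Type) [Fintype Ω]
    [Nonempty Ω] (T : Fin d → ℕ → Ω → Ω) (X : Fin d → ℕ → Ω → ℝ) (f : Ce d → Ω → ℝ),
    Hyp n T X f → ∀ (F : Ce d → Ω → ℝ) (M : ℝ), (∀ r x, ∑ i, r i ≠ n → F r x = 0) →
    (∀ r i x, F r (T i (r i) x) = - F r x) → (∀ r i v x, r i < v → F r (T i v x) = F r x) →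
    (∀ x, |∑ r ∈ cells (fun _ => n), F r x| ≤ M) →
    c * ∑ r ∈ cells (fun _ => n), E (fun x => F r x * f r x) ≤
      ((n : ℝ) + 1) ^ (((d : ℝ) - 2) / 2) * ((mm n : ℝ) + 1) ^ A * M := by
  obtain ⟨A, hA1, hA⟩ := all_PFQ d (2 * d) hd
  refine ⟨cz d / (1 + 2 ^ d), by have := cz_pos d; positivity, A, ?_⟩
  intro n Ω _ _ T X f hH F M hF0 hFo hFf hM
  have hcz := cz_pos d
  have hcz1 := cz_le_one d
  have hmm : (0 : ℝ) < ((mm n : ℝ) + 1) ^ A := by positivity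
  have hmm1 : (1 : ℝ) ≤ ((mm n : ℝ) + 1) ^ A := by
    apply one_le_pow₀
    have : (0 : ℝ) ≤ (mm n : ℝ) := Nat.cast_nonneg _
    linarith
  set dl : ℝ := cz d / ((mm n : ℝ) + 1) ^ A with hdl
  have hdl0 : 0 < dl := by positivity
  have hdl1 : dl * ((mm n : ℝ) + 1) ^ A ≤ 1 := by
    rw [hdl, div_mul_cancel₀ _ hmm.ne']
    exact hcz1
  have hPF := hA n dl hdl0 hdl1 Ω T X f hH
  have hn1 : (1 : ℝ) ≤ (n : ℝ) + 1 := by
    have : (0 : ℝ) ≤ n := Nat.cast_nonneg n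
    linarith
  have hL1 := all_L1 d n (mm n) (etQ d A n dl) Ω T X f (rhQ d n dl) (1 / ((n : ℝ) + 1) ^ (2 * d))
    (by omega) hH (by positivity) hPF
  have hL1' : E (fun x => |Psi n (mm n) (etQ d A n dl) (rhQ d n dl) X f x|) ≤ 1 + 2 ^ d := by
    refine hL1.trans (le_of_eq ?_)
    field_simp
  set P : ℝ := ((n : ℝ) + 1) ^ (((d : ℝ) - 2) / 2) with hP
  have hP0 : 0 < P := by positivity
  have hP1 : 1 ≤ P := by
    apply Real.one_le_rpow hn1
    have : (3 : ℝ) ≤ d := by exact_mod_cast hd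
    linarith
  have hrh : rhQ d n dl = dl / P := by
    unfold rhQ
    rw [Real.rpow_neg (by linarith), ← hP]
    field_simp
  have hρ0 : 0 < rhQ d n dl := by rw [hrh]; positivity
  have hρ1 : rhQ d n dl ≤ cz d := by
    rw [hrh, div_le_iff₀ hP0, hdl, div_le_iff₀ hmm]
    have h1 : 1 ≤ P * ((mm n : ℝ) + 1) ^ A := one_le_mul_of_one_le_of_one_le hP1 hmm1
    calc cz d = cz d * 1 := (mul_one _).symm
      _ ≤ cz d * (P * ((mm n : ℝ) + 1) ^ A) := mul_le_mul_of_nonneg_left h1 hcz.le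
      _ = _ := by ring
  have hη : ∀ k, 0 ≤ etQ d A n dl k := by
    intro k
    unfold etQ
    positivity
  have hpair := pairing n (mm n) (etQ d A n dl) (rhQ d n dl) T X f (by omega) hH hρ0.le hρ1 hη F
    hF0 hFo hFf
  have hM0 : 0 ≤ M := (abs_nonneg _).trans (hM (Classical.arbitrary Ω))
  have h1 : E (fun x => (∑ r ∈ cells (fun _ => n), F r x) *
      Psi n (mm n) (etQ d A n dl) (rhQ d n dl) X f x) ≤ M * (1 + 2 ^ d) := by
    calc E (fun x => (∑ r ∈ cells (fun _ => n), F r x) *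
          Psi n (mm n) (etQ d A n dl) (rhQ d n dl) X f x)
        ≤ E (fun x => M * |Psi n (mm n) (etQ d A n dl) (rhQ d n dl) X f x|) := by
          refine E_mono fun x => ?_
          refine (le_abs_self _).trans ?_
          rw [abs_mul]
          exact mul_le_mul_of_nonneg_right (hM x) (abs_nonneg _)
      _ = M * E (fun x => |Psi n (mm n) (etQ d A n dl) (rhQ d n dl) X f x|) := E_smul _ _
      _ ≤ M * (1 + 2 ^ d) := mul_le_mul_of_nonneg_left hL1' hM0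
  rw [hpair, hrh] at h1
  set S := ∑ r ∈ cells (fun _ => n), E (fun x => F r x * f r x) with hS
  have h2 : dl / P * S = (cz d * S) / (P * ((mm n : ℝ) + 1) ^ A) := by
    rw [hdl]
    field_simp
  rw [h2, div_le_iff₀ (by positivity)] at h1
  rw [div_mul_eq_mul_div, div_le_iff₀ (by positivity)]
  calc cz d * S ≤ M * (1 + 2 ^ d) * (P * ((mm n : ℝ) + 1) ^ A) := h1
    _ = _ := by ring

end Pool.Agent.H553.SB
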