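import Pool.Graph.R_pool_sql_team_seeded_3dad9d7b.NH99.AL.All

set_option autoImplicit false

/-!
# Small ball inequality: pairing of an arbitrary hyperbolic sum with the test function
-/

namespace Pool.Agent.H553.SB

open Finset
open Pool.Agent.H397R2.SD (E E_congr E_add E_sum E_zero E_smul)
open Pool.Agent.NH43.AD
open Pool.Agent.NH44.AD (HB FB TV bx bz pr nm)

variable {d : ℕ}

/-- the norm of the zero function -/
theorem HB_zero (m : ℕ) (P : Ce d) (I : Finset (Fin d)) (F : Ce d → ℝ) (κ : ℝ) (hκ : 0 ≤ κ)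
    (hF : ∀ q : Ce d, (∀ i, q i ≤ P i) → F q = 0) : HB m P I F κ := by
  intro θ _ A B _ _ hAB x z
  have h0 : ∀ s ∈ bx I P, TV m P Iᶜ θ F s = 0 := by
    intro s hs
    unfold TV
    refine sum_eq_zero fun q hq => ?_
    rw [hF q, mul_zero]
    intro i
    unfold bz at hq
    unfold bx at hs
    rw [Fintype.mem_piFinset] at hq hs
    have h1 := hq i
    have h2 := hs i
    by_cases hi : i ∈ I
    · rw [if_neg (by simpa using hi), mem_singleton] at h1
      rw [if_pos hi, mem_range] at h2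
      omega
    · rw [if_pos (by simpa using hi), mem_range] at h1
      omega
  have h1 : ∑ s ∈ bx I P, x (pr A P s) * z (pr B P s) * TV m P Iᶜ θ F s = 0 :=
    sum_eq_zero fun s hs => by rw [h0 s hs, mul_zero]
  rw [h1, abs_zero]
  have : 0 ≤ nm A P x * nm B P z := mul_nonneg (Real.sqrt_nonneg _) (Real.sqrt_nonneg _)
  exact mul_nonneg hκ this

theorem cz_pos (d : ℕ) : 0 < cz d := by
  unfold cz
  positivity

/-- the cells of the first generation are good -/
theorem good_first (n m : ℕ) (η : ℕ → ℝ) (X : Fin d → ℕ → ℝ) (y : Ce d → ℝ) (ρ : ℝ) (hd : 2 ≤ d)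
    (hX : ∀ i v, X i v = 1 ∨ X i v = -1) (hη : ∀ k, 0 ≤ η k) (hρ : ρ ≤ cz d)
    (hy : ∀ r, |y r| ≤ ρ) (hy0 : ∀ r : Ce d, ∑ i, r i ≠ n → y r = 0) (p : Ce d)
    (hp : ∑ i, p i = n) : Good m η X y p := by
  obtain ⟨L1, L2, L3, L4, L5, L6, L7, L8, L9, L10⟩ := all_LAW d X y hd hX
  -- cells below `p`, other than `p`, carry no births
  have hlt : ∀ r : Ce d, (∀ i, r i ≤ p i) → r ≠ p → y r = 0 := by
    intro r hr hne
    refine hy0 r fun h => hne ?_
    have h1 : ∀ i ∈ (univ : Finset (Fin d)), r i ≤ p i := fun i _ => hr i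
    have h2 := (sum_eq_sum_iff_of_le h1).1 (by rw [h, hp])
    funext i
    exact h2 i (mem_univ i)
  have hzero : ∀ q : Ce d, (∀ i, q i ≤ p i) → ∀ S : Finset (Fin d), S.Nonempty → S ≠ univ →
      KK X y S q = 0 := by
    intro q hq S hS hSu
    refine L10 S q hS hSu fun r hr hne => hlt r (fun i => (hr i).trans (hq i)) ?_
    intro h
    apply hne
    funext i
    have h1 := hr i
    have h2 := hq i
    rw [h] at h1 ⊢
    omega
  have hDD : ∀ q : Ce d, (∀ i, q i ≤ p i) → DD y q = 1 := by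
    intro q hq
    refine L3 q fun r hr => hlt r (fun i => (hr i).le.trans (hq i)) ?_
    intro h
    have : NeZero d := ⟨by omega⟩
    have h1 := hr 0
    have h2 := hq 0
    rw [h] at h1
    omega
  have h1 : 0 ≤ ρ := (abs_nonneg _).trans (hy p)
  intro q hq
  refine ⟨by rw [hDD q hq]; norm_num, ?_, ?_⟩
  · intro S hS
    by_cases hSu : S = univ
    · subst hSu
      rw [L4 q (by rw [hDD q hq]; norm_num), abs_mul, abs_prod]
      have h2 : ∏ i, |X i (q i)| = 1 := by
        refine prod_eq_one fun i _ => ?_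
        rcases hX i (q i) with h | h <;> rw [h] <;> norm_num
      rw [h2, one_mul]
      exact (hy q).trans hρ
    · rw [hzero q hq S hS hSu, abs_zero]
      exact (cz_pos d).le
  · intro S hS hSu
    refine HB_zero m q S _ _ (hη _) fun r hr => hzero r (fun i => (hr i).trans (hq i)) S hS hSu

/-- invariance of the mean value under involutions -/
theorem E_invol {Ω : Type} [Fintype Ω] (T : Ω → Ω) (hT : ∀ x, T (T x) = x) (g : Ω → ℝ) :
    E (fun x => g (T x)) = E g := by
  unfold E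
  congr 1
  exact Equiv.sum_comp (Function.Involutive.toPerm T hT) g

theorem E_odd {Ω : Type} [Fintype Ω] (T : Ω → Ω) (hT : ∀ x, T (T x) = x) (g : Ω → ℝ)
    (hg : ∀ x, g (T x) = - g x) : E g = 0 := by
  have h1 := E_invol T hT g
  have h2 : E (fun x => g (T x)) = - E g := by
    rw [E_congr hg]
    unfold E
    rw [sum_neg_distrib, neg_div]
  linarith

open Classical in
/-- the component of the test function at the cell `p` -/
noncomputable def comp {Ω : Type} (m : ℕ) (η : ℕ → ℝ) (ρ : ℝ) (X : Fin d → ℕ → Ω → ℝ)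
    (f : Ce d → Ω → ℝ) (p : Ce d) (x : Ω) : ℝ :=
  if Good m η (Xx X x) (yx ρ f x) p then top (yx ρ f x) p else 0

theorem Psi_eq {Ω : Type} (n m : ℕ) (η : ℕ → ℝ) (ρ : ℝ) (X : Fin d → ℕ → Ω → ℝ)
    (f : Ce d → Ω → ℝ) (x : Ω) :
    Psi n m η ρ X f x = 1 + ∑ p ∈ cells (fun _ => n), comp m η ρ X f p x := rfl

theorem comp_fix {Ω : Type} [Fintype Ω] (n m : ℕ) (η : ℕ → ℝ) (ρ : ℝ) (T : Fin d → ℕ → Ω → Ω)
    (X : Fin d → ℕ → Ω → ℝ) (f : Ce d → Ω → ℝ) (hd : 2 ≤ d) (hH : Hyp n T X f)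
    (p : Ce d) (hp : ∀ i, p i ≤ n) (i : Fin d) (v : ℕ) (hv : p i < v) (x : Ω) :
    comp m η ρ X f p (T i v x) = comp m η ρ X f p x := by
  classical
  have hG := (all_GPRE d n m η Ω T X f ρ hd hH p hp).1 i v hv.le x
  have hP := (all_PRE d n Ω T X f ρ hd hH).1
  have hD : ∀ U : Finset (Fin d), DD (yx ρ f (T i v x)) (up U p) = DD (yx ρ f x) (up U p) := by
    intro U
    refine hP (up U p) i v ?_ x
    unfold up
    split_ifs <;> omega
  unfold comp
  have hG' : Good m η (Xx X (T i v x)) (yx ρ f (T i v x)) p ↔ Good m η (Xx X x) (yx ρ f x) p :=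
    iff_of_eq hG
  simp only [hG']
  unfold top
  simp only [hD]

theorem comp_odd {Ω : Type} [Fintype Ω] (n m : ℕ) (η : ℕ → ℝ) (ρ : ℝ) (T : Fin d → ℕ → Ω → Ω)
    (X : Fin d → ℕ → Ω → ℝ) (f : Ce d → Ω → ℝ) (hd : 2 ≤ d) (hH : Hyp n T X f)
    (p : Ce d) (hp : ∀ i, p i ≤ n) (i : Fin d) (x : Ω) :
    comp m η ρ X f p (T i (p i) x) = - comp m η ρ X f p x := by
  classical
  have hG := (all_GPRE d n m η Ω T X f ρ hd hH p hp).1 i (p i) le_rfl x
  have hP := (all_PRE d n Ω T X f ρ hd hH).2.2.2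
  have hG' : Good m η (Xx X (T i (p i) x)) (yx ρ f (T i (p i) x)) p ↔
      Good m η (Xx X x) (yx ρ f x) p := iff_of_eq hG
  unfold comp
  by_cases h : Good m η (Xx X x) (yx ρ f x) p
  · rw [if_pos (hG'.2 h), if_pos h]
    exact hP p x hp (fun q hq => (h q hq).1.ne') i
  · rw [if_neg (fun h' => h (hG'.1 h')), if_neg h, neg_zero]

/-- the pairing of an arbitrary sum of r-functions with the test function -/
theorem pairing {Ω : Type} [Fintype Ω] [Nonempty Ω] (n m : ℕ) (η : ℕ → ℝ) (ρ : ℝ)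
    (T : Fin d → ℕ → Ω → Ω) (X : Fin d → ℕ → Ω → ℝ) (f : Ce d → Ω → ℝ) (hd : 2 ≤ d)
    (hH : Hyp n T X f) (hρ0 : 0 ≤ ρ) (hρ : ρ ≤ cz d) (hη : ∀ k, 0 ≤ η k)
    (F : Ce d → Ω → ℝ) (hF0 : ∀ r x, ∑ i, r i ≠ n → F r x = 0)
    (hFo : ∀ r i x, F r (T i (r i) x) = - F r x)
    (hFf : ∀ r i v x, r i < v → F r (T i v x) = F r x) :
    E (fun x => (∑ r ∈ cells (fun _ => n), F r x) * Psi n m η ρ X f x) =
      ρ * ∑ r ∈ cells (fun _ => n), E (fun x => F r x * f r x) := by
  have hcell : ∀ p : Ce d, p ∈ cells (fun _ : Fin d => n) ↔ ∀ i, p i ≤ n := by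
    intro p
    unfold cells
    rw [Fintype.mem_piFinset]
    simp only [mem_range, Nat.lt_succ_iff]
  have hyb : ∀ x r, |yx ρ f x r| ≤ ρ := by
    intro x r
    unfold yx
    rw [abs_mul, abs_of_nonneg hρ0]
    calc ρ * |f r x| ≤ ρ * 1 := mul_le_mul_of_nonneg_left (hH.le r x) hρ0
      _ = ρ := mul_one _
  have hy0 : ∀ x (r : Ce d), ∑ i, r i ≠ n → yx ρ f x r = 0 := by
    intro x r hr
    unfold yx
    rw [hH.zero r x hr, mul_zero]
  have hXx : ∀ x i v, Xx X x i v = 1 ∨ Xx X x i v = -1 := fun x i v => hH.sgn i v x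
  -- expansion
  have h1 : ∀ x, (∑ r ∈ cells (fun _ => n), F r x) * Psi n m η ρ X f x =
      ∑ r ∈ cells (fun _ => n), F r x +
        ∑ r ∈ cells (fun _ => n), ∑ p ∈ cells (fun _ => n), F r x * comp m η ρ X f p x := by
    intro x
    rw [Psi_eq, mul_add, mul_one, sum_mul_sum]
  rw [E_congr h1, E_add, E_sum, E_sum]
  have h2 : ∀ r ∈ cells (fun _ : Fin d => n), E (fun x => F r x) = 0 := by
    intro r _
    have : NeZero d := ⟨by omega⟩
    exact E_odd (T 0 (r 0)) (hH.inv 0 (r 0)) (fun x => F r x) (fun x => hFo r 0 x)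
  rw [sum_eq_zero h2, zero_add, mul_sum]
  refine sum_congr rfl fun r hr => ?_
  rw [E_sum]
  by_cases hrn : ∑ i, r i = n
  · rw [sum_eq_single r]
    · have h3 : ∀ x, F r x * comp m η ρ X f r x = ρ * (F r x * f r x) := by
        intro x
        have hg : Good m η (Xx X x) (yx ρ f x) r :=
          good_first n m η (Xx X x) (yx ρ f x) ρ hd (hXx x) hη hρ (hyb x) (hy0 x) r hrn
        unfold comp
        rw [if_pos hg]
        obtain ⟨C, hC⟩ := all_LOC d hd
        have h4 := (hC n m η (Xx X x) (yx ρ f x) ρ (hXx x) hρ0 (hyb x) (hy0 x) r hg).2.1 hrn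
        rw [h4]
        unfold yx
        ring
      rw [E_congr h3, E_smul]
    · intro p hp hpr
      have hp' := (hcell p).1 hp
      obtain ⟨i, hi⟩ : ∃ i, p i ≠ r i := by
        by_contra hcon
        push Not at hcon
        exact hpr (funext hcon)
      rcases lt_or_gt_of_ne hi with hlt | hgt
      · refine E_odd (T i (r i)) (hH.inv i (r i)) _ fun x => ?_
        rw [hFo r i x, comp_fix n m η ρ T X f hd hH p hp' i (r i) hlt x]
        ring
      · refine E_odd (T i (p i)) (hH.inv i (p i)) _ fun x => ?_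
        rw [hFf r i (p i) x hgt, comp_odd n m η ρ T X f hd hH p hp' i x]
        ring
    · intro h
      exact absurd hr h
  · have h5 : ∀ p ∈ cells (fun _ : Fin d => n), E (fun x => F r x * comp m η ρ X f p x) = 0 := by
      intro p _
      have h6 : ∀ x, F r x * comp m η ρ X f p x = 0 := by
        intro x
        rw [hF0 r x hrn, zero_mul]
      rw [E_congr h6]
      unfold E
      simp
    rw [sum_eq_zero h5]
    have h7 : ∀ x, F r x * f r x = 0 := by
      intro x
      rw [hF0 r x hrn, zero_mul]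
    rw [E_congr h7]
    unfold E
    simp

end Pool.Agent.H553.SB
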